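import Pool.Agent.H31.CN.T1

/-!
# (TPB) The Hecke operator preserves invariance and bounds
-/

set_option autoImplicit false

namespace Pool.Agent.H33.CN

open Pool.Agent.H31.CN

/-- first part of the Hecke operator -/
noncomputable def P1 (p : ℕ) (F : QF → ℝ) (Q : QF) : ℝ :=
  if (p : ℤ) ∣ Q.1 then F (Q.1 / p, Q.2.1, p * Q.2.2) else 0

/-- second part of the Hecke operator -/
noncomputable def P2 (p : ℕ) (F : QF → ℝ) (Q : QF) : ℝ :=
  ∑ j ∈ (Finset.range p).filter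
    (fun j : ℕ => (p : ℤ) ∣ Q.1 * (j : ℤ) ^ 2 + Q.2.1 * (j : ℤ) + Q.2.2),
    F (p * Q.1, Q.2.1 + 2 * Q.1 * j, (Q.1 * (j : ℤ) ^ 2 + Q.2.1 * (j : ℤ) + Q.2.2) / p)

theorem Tp_eq (p : ℕ) (F : QF → ℝ) (Q : QF) : Tp p F Q = P1 p F Q + P2 p F Q := rfl

theorem Wp_eq (p : ℕ) (ω : QF → ℕ → ℝ) (Q : QF) (e : ℕ) : Wp p ω Q e =
    P1 p (fun R => ω R e) Q + if p ∣ e then P2 p (fun R => ω R (e / p)) Q else 0 := rfl

theorem mem_FD1 {Δ p : ℕ} (hp : 0 < p) {a B C : ℤ} (h : ((p : ℤ) * a, B, C) ∈ FD Δ) :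
    (a, B, (p : ℤ) * C) ∈ FD Δ := by
  obtain ⟨h1, h2⟩ := h
  refine ⟨?_, ?_⟩
  · have hp' : (0 : ℤ) < p := by exact_mod_cast hp
    exact pos_of_mul_pos_right h1 hp'.le
  · rw [← h2]
    unfold dsc
    ring

theorem mem_FD2 {Δ p : ℕ} (hp : 0 < p) {A B C c j : ℤ} (h : (A, B, C) ∈ FD Δ)
    (hc : A * j ^ 2 + B * j + C = p * c) : ((p : ℤ) * A, B + 2 * A * j, c) ∈ FD Δ := by
  obtain ⟨h1, h2⟩ := h
  refine ⟨?_, ?_⟩
  · have hp' : (0 : ℤ) < p := by exact_mod_cast hp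
    exact mul_pos hp' h1
  · rw [← h2]
    unfold dsc
    simp only
    linear_combination (-(4 * A)) * hc

theorem inv_nat {Δ : ℕ} {F : QF → ℝ}
    (hF : ∀ Q ∈ FD Δ, F (Q.1, Q.2.1 + 2 * Q.1, Q.1 + Q.2.1 + Q.2.2) = F Q) {A B C : ℤ}
    (h : (A, B, C) ∈ FD Δ) (n : ℕ) :
    (A, B + 2 * A * n, A * (n : ℤ) ^ 2 + B * n + C) ∈ FD Δ ∧
    F (A, B + 2 * A * n, A * (n : ℤ) ^ 2 + B * n + C) = F (A, B, C) := by
  have hmem : (A, B + 2 * A * n, A * (n : ℤ) ^ 2 + B * n + C) ∈ FD Δ := by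
    obtain ⟨h1, h2⟩ := h
    refine ⟨h1, ?_⟩
    rw [← h2]
    unfold dsc
    simp only
    ring
  refine ⟨hmem, ?_⟩
  induction n with
  | zero => simp
  | succ n ih =>
    have hm : (A, B + 2 * A * n, A * (n : ℤ) ^ 2 + B * n + C) ∈ FD Δ := by
      obtain ⟨h1, h2⟩ := h
      refine ⟨h1, ?_⟩
      rw [← h2]
      unfold dsc
      simp only
      ring
    rw [← ih hm, ← hF _ hm]
    congr 1
    simp only [Prod.mk.injEq, true_and]
    push_cast
    constructor <;> ring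

theorem inv1 {Δ p : ℕ} (hp : 0 < p) {F : QF → ℝ}
    (hF : ∀ Q ∈ FD Δ, F (Q.1, Q.2.1 + 2 * Q.1, Q.1 + Q.2.1 + Q.2.2) = F Q) {Q : QF}
    (hQ : Q ∈ FD Δ) : P1 p F (Q.1, Q.2.1 + 2 * Q.1, Q.1 + Q.2.1 + Q.2.2) = P1 p F Q := by
  have hp' : (p : ℤ) ≠ 0 := by exact_mod_cast hp.ne'
  obtain ⟨A, B, C⟩ := Q
  unfold P1
  simp only
  by_cases h : (p : ℤ) ∣ A
  · rw [if_pos h, if_pos h]
    obtain ⟨a, rfl⟩ := h
    rw [Int.mul_ediv_cancel_left _ hp']
    have h1 := (inv_nat hF (mem_FD1 hp hQ) p).2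
    rw [← h1]
    congr 1
    simp only [Prod.mk.injEq, true_and]
    constructor <;> ring
  · rw [if_neg h, if_neg h]

theorem inv2 {Δ p : ℕ} (hp : 0 < p) {F : QF → ℝ}
    (hF : ∀ Q ∈ FD Δ, F (Q.1, Q.2.1 + 2 * Q.1, Q.1 + Q.2.1 + Q.2.2) = F Q) {Q : QF}
    (hQ : Q ∈ FD Δ) : P2 p F (Q.1, Q.2.1 + 2 * Q.1, Q.1 + Q.2.1 + Q.2.2) = P2 p F Q := by
  have hp' : (p : ℤ) ≠ 0 := by exact_mod_cast hp.ne'
  obtain ⟨A, B, C⟩ := Q
  unfold P2
  simp only
  rw [Finset.sum_filter, Finset.sum_filter]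
  obtain ⟨g, hg⟩ : ∃ g : ℕ → ℝ, g = fun j : ℕ => if (p : ℤ) ∣ A * (j : ℤ) ^ 2 + B * j + C then
    F (p * A, B + 2 * A * j, (A * (j : ℤ) ^ 2 + B * j + C) / p) else 0 := ⟨_, rfl⟩
  have h1 : ∀ j : ℕ, (if (p : ℤ) ∣ A * (j : ℤ) ^ 2 + (B + 2 * A) * j + (A + B + C) then
      F (p * A, B + 2 * A + 2 * A * j, (A * (j : ℤ) ^ 2 + (B + 2 * A) * j + (A + B + C)) / p)
      else 0) = g (j + 1) := by
    intro j
    rw [hg]
    simp only
    have e1 : A * (j : ℤ) ^ 2 + (B + 2 * A) * j + (A + B + C) =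
        A * ((j + 1 : ℕ) : ℤ) ^ 2 + B * ((j + 1 : ℕ) : ℤ) + C := by
      push_cast
      ring
    have e2 : B + 2 * A + 2 * A * j = B + 2 * A * ((j + 1 : ℕ) : ℤ) := by
      push_cast
      ring
    rw [e1, e2]
  have h2 : ∀ j : ℕ, (if (p : ℤ) ∣ A * (j : ℤ) ^ 2 + B * j + C then
      F (p * A, B + 2 * A * j, (A * (j : ℤ) ^ 2 + B * j + C) / p) else 0) = g j := by
    intro j
    rw [hg]
  rw [Finset.sum_congr rfl fun j _ => h1 j, Finset.sum_congr rfl fun j _ => h2 j]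
  have h3 : g p = g 0 := by
    rw [hg]
    simp only
    have e1 : (p : ℤ) ∣ A * (p : ℤ) ^ 2 + B * p + C ↔ (p : ℤ) ∣ A * ((0 : ℕ) : ℤ) ^ 2 +
        B * ((0 : ℕ) : ℤ) + C := by
      have : A * (p : ℤ) ^ 2 + B * p + C = p * (A * p + B) + C := by ring
      rw [this, dvd_add_right (dvd_mul_right _ _)]
      simp
    by_cases h : (p : ℤ) ∣ A * (p : ℤ) ^ 2 + B * p + C
    · rw [if_pos h, if_pos (e1.1 h)]
      have h4 := e1.1 h
      have e3 : A * ((0 : ℕ) : ℤ) ^ 2 + B * ((0 : ℕ) : ℤ) + C = C := by simp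
      rw [e3] at h4 ⊢
      obtain ⟨c, rfl⟩ := h4
      have e4 : A * (p : ℤ) ^ 2 + B * p + p * c = p * (A * p + B + c) := by ring
      rw [e4, Int.mul_ediv_cancel_left _ hp', Int.mul_ediv_cancel_left _ hp']
      have h5 : ((p : ℤ) * A, B, c) ∈ FD Δ := by
        have := mem_FD2 (j := 0) hp hQ (c := c) (by ring)
        simpa using this
      have h6 := hF _ h5
      simp only at h6
      have e5 : ((p : ℤ) * A, B + 2 * A * ((0 : ℕ) : ℤ), c) = ((p : ℤ) * A, B, c) := by simp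
      rw [e5, ← h6]
      congr 1
      simp only [Prod.mk.injEq, true_and]
      constructor <;> ring
    · rw [if_neg h, if_neg fun h' => h (e1.2 h')]
  have h4 := Finset.sum_range_succ g p
  have h5 := Finset.sum_range_succ' g p
  linarith

theorem bd1 {Δ p : ℕ} (hp : 0 < p) {F : QF → ℝ} {M : ℝ} (hM : 0 ≤ M) {Q : QF} (hQ : Q ∈ FD Δ)
    (h : ∀ R ∈ FD Δ, (p : ℤ) * R.1 = Q.1 → |F R| ≤ M) : |P1 p F Q| ≤ M := by
  have hp' : (p : ℤ) ≠ 0 := by exact_mod_cast hp.ne'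
  obtain ⟨A, B, C⟩ := Q
  unfold P1
  simp only
  by_cases hA : (p : ℤ) ∣ A
  · rw [if_pos hA]
    obtain ⟨a, rfl⟩ := hA
    rw [Int.mul_ediv_cancel_left _ hp']
    exact h _ (mem_FD1 hp hQ) rfl
  · rw [if_neg hA, abs_zero]
    exact hM

theorem bd2 {Δ p : ℕ} (hp : 0 < p) {F : QF → ℝ} {M : ℝ} (hM : 0 ≤ M) {Q : QF} (hQ : Q ∈ FD Δ)
    (h : ∀ R ∈ FD Δ, R.1 = (p : ℤ) * Q.1 → |F R| ≤ M) : |P2 p F Q| ≤ p * M := by
  have hp' : (p : ℤ) ≠ 0 := by exact_mod_cast hp.ne'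
  obtain ⟨A, B, C⟩ := Q
  unfold P2
  simp only
  refine (Finset.abs_sum_le_sum_abs _ _).trans ?_
  calc _ ≤ ∑ j ∈ (Finset.range p).filter
        (fun j : ℕ => (p : ℤ) ∣ A * (j : ℤ) ^ 2 + B * (j : ℤ) + C), M := by
        refine Finset.sum_le_sum fun j hj => ?_
        rw [Finset.mem_filter] at hj
        obtain ⟨c, hc⟩ := hj.2
        rw [hc, Int.mul_ediv_cancel_left _ hp']
        exact h _ (mem_FD2 hp hQ hc) rfl
    _ = ((Finset.range p).filter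
        (fun j : ℕ => (p : ℤ) ∣ A * (j : ℤ) ^ 2 + B * (j : ℤ) + C)).card * M := by
        rw [Finset.sum_const, nsmul_eq_mul]
    _ ≤ p * M := by
        refine mul_le_mul_of_nonneg_right ?_ hM
        have := (Finset.card_filter_le (Finset.range p)
          (fun j : ℕ => (p : ℤ) ∣ A * (j : ℤ) ^ 2 + B * (j : ℤ) + C))
        rw [Finset.card_range] at this
        exact_mod_cast this

/-- target TPB of the board -/
theorem pf_TPB : T_TPB := by
  intro Δ p _ hpp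
  have hp := hpp.pos
  have hp1 : (1 : ℝ) ≤ p := by exact_mod_cast hp
  refine ⟨?_, ?_, ?_, ?_⟩
  · intro K k F hF Q hQ
    have hA : (0 : ℝ) < Q.1 := by exact_mod_cast hQ.1
    have hk : (0 : ℝ) < (1 + (Q.1 : ℝ)) ^ k := by positivity
    have hK : 0 ≤ K := by
      have := (abs_nonneg _).trans (hF Q hQ)
      by_contra hcon
      push Not at hcon
      exact absurd this (not_le.2 (mul_neg_of_neg_of_pos hcon hk))
    have h1 : |P1 p F Q| ≤ K * (1 + (Q.1 : ℝ)) ^ k := by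
      refine bd1 hp (by positivity) hQ fun R hR hRQ => (hF R hR).trans ?_
      have hR0 : (0 : ℝ) < R.1 := by exact_mod_cast hR.1
      have e : (p : ℝ) * R.1 = Q.1 := by exact_mod_cast hRQ
      refine mul_le_mul_of_nonneg_left (pow_le_pow_left₀ (by positivity) ?_ k) hK
      nlinarith
    have h2 : |P2 p F Q| ≤ p * (K * ((p : ℝ) ^ k * (1 + (Q.1 : ℝ)) ^ k)) := by
      refine bd2 hp (by positivity) hQ fun R hR hRQ => (hF R hR).trans ?_
      have e : (R.1 : ℝ) = p * Q.1 := by exact_mod_cast hRQ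
      rw [e, ← mul_pow]
      refine mul_le_mul_of_nonneg_left (pow_le_pow_left₀ (by positivity) ?_ k) hK
      nlinarith
    rw [Tp_eq]
    refine (abs_add_le _ _).trans ((add_le_add h1 h2).trans ?_)
    have h3 : 1 + (p : ℝ) ^ (k + 1) ≤ ((p : ℝ) + 1) ^ (k + 1) := by
      have h4 : (p : ℝ) ^ (k + 1) + 1 ^ (k + 1) ≤ ((p : ℝ) + 1) ^ (k + 1) :=
        pow_add_pow_le (by positivity) (by positivity) (by omega)
      rw [one_pow] at h4
      linarith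
    have h5 := mul_le_mul_of_nonneg_left h3 (show 0 ≤ K * (1 + (Q.1 : ℝ)) ^ k by positivity)
    calc _ = K * (1 + (Q.1 : ℝ)) ^ k * (1 + (p : ℝ) ^ (k + 1)) := by ring
      _ ≤ _ := h5
      _ = _ := by ring
  · intro F hF Q hQ
    rw [Tp_eq, Tp_eq, inv1 hp hF hQ, inv2 hp hF hQ]
  · intro K c ω hc hω Q hQ e
    have hA : (0 : ℝ) < Q.1 := by exact_mod_cast hQ.1
    have hK : 0 ≤ K := by
      have := (abs_nonneg _).trans (hω Q hQ e)
      by_contra hcon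
      push Not at hcon
      exact absurd this (not_le.2 (mul_neg_of_neg_of_pos hcon (Real.exp_pos _)))
    have hp0 : (p : ℝ) ≠ 0 := by positivity
    have h1 : |P1 p (fun R => ω R e) Q| ≤
        K * Real.exp (-((c / p) * ((e : ℝ) ^ 2 * Q.1))) := by
      refine bd1 hp (by positivity) hQ fun R hR hRQ => (hω R hR e).trans (le_of_eq ?_)
      have e1 : (Q.1 : ℝ) = p * R.1 := by exact_mod_cast hRQ.symm
      rw [e1]
      congr 2
      field_simp
    have h2 : |if p ∣ e then P2 p (fun R => ω R (e / p)) Q else 0| ≤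
        p * (K * Real.exp (-((c / p) * ((e : ℝ) ^ 2 * Q.1)))) := by
      by_cases he : p ∣ e
      · rw [if_pos he]
        refine bd2 hp (by positivity) hQ fun R hR hRQ => (hω R hR (e / p)).trans (le_of_eq ?_)
        obtain ⟨f, rfl⟩ := he
        rw [Nat.mul_div_cancel_left _ hp]
        have e1 : (R.1 : ℝ) = p * Q.1 := by exact_mod_cast hRQ
        rw [e1]
        congr 2
        push_cast
        field_simp
      · rw [if_neg he, abs_zero]
        positivity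
    rw [Wp_eq]
    refine (abs_add_le _ _).trans ((add_le_add h1 h2).trans (le_of_eq ?_))
    ring
  · intro ω hω Q hQ e
    rw [Wp_eq, Wp_eq, inv1 hp (fun R hR => hω R hR e) hQ]
    by_cases he : p ∣ e
    · rw [if_pos he, if_pos he, inv2 hp (fun R hR => hω R hR (e / p)) hQ]
    · rw [if_neg he, if_neg he]

end Pool.Agent.H33.CN
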